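import Mathlib

/-!
Bounded approximate amenability of commutative Banach algebras that are spanned by idempotents and
have local units with bounded sets of involutions.
-/

set_option autoImplicit false
set_option linter.unusedSectionVars false

open Filter Topology

namespace Pool.Agent.H7.BAA

section abstract

variable {A : Type} [NonUnitalNormedRing A] [NormedSpace ℂ A] [IsScalarTower ℂ A A]
  [SMulCommClass ℂ A A]
variable {X : Type} [NormedAddCommGroup X] [NormedSpace ℂ X]

/-- The affine map `phi -> u phi u + u D(u)`. -/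
noncomputable def T (L R : A →L[ℂ] X →L[ℂ] X) (D : A →L[ℂ] (X →L[ℂ] ℂ)) (u : A)
    (φ : X →L[ℂ] ℂ) : X →L[ℂ] ℂ :=
  φ.comp ((L u).comp (R u)) + (D u).comp (R u)

lemma T_apply (L R : A →L[ℂ] X →L[ℂ] X) (D : A →L[ℂ] (X →L[ℂ] ℂ)) (u : A)
    (φ : X →L[ℂ] ℂ) (x : X) : T L R D u φ x = φ (L u (R u x)) + D u (R u x) := rfl

/-- Involutions over the idempotent `e`. -/
def Inv (e : A) : Set A := {u | u * u = e ∧ e * u = u}

variable (L R : A →L[ℂ] X →L[ℂ] X) (D : A →L[ℂ] (X →L[ℂ] ℂ))

lemma T_mul (hL : ∀ (a b : A) (x : X), L (a * b) x = L a (L b x))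
    (hR : ∀ (a b : A) (x : X), R (a * b) x = R b (R a x))
    (hLR : ∀ (a b : A) (x : X), L a (R b x) = R b (L a x))
    (hD : ∀ a b : A, D (a * b) = (D b).comp (R a) + (D a).comp (L b))
    (hc : ∀ a b : A, a * b = b * a) (u v : A) (huv : u * v * v = u) (φ : X →L[ℂ] ℂ) :
    T L R D u (T L R D v φ) = T L R D (u * v) φ := by
  ext x
  have h1 : L (u * v) (R (u * v) x) = L v (R v (L u (R u x))) := by
    rw [hR, hc u v, hL, hLR u v]
  have h2 : D (u * v) (R (u * v) x) = D v (R v (L u (R u x))) + D u (R u x) := by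
    have h3 : R v (R v (R u x)) = R u x := by
      rw [← hR u v, ← hR (u * v) v, huv]
    rw [hR, hc u v, hD]
    simp only [ContinuousLinearMap.add_apply, ContinuousLinearMap.comp_apply]
    rw [h3, hLR u v, add_comm]
  rw [T_apply, T_apply, T_apply, h1, h2]
  ring

lemma T_avg (u : A) (φ ψ : X →L[ℂ] ℂ) :
    T L R D u ((1 / 2 : ℂ) • (φ + ψ)) = (1 / 2 : ℂ) • (T L R D u φ + T L R D u ψ) := by
  ext x
  simp only [T_apply, ContinuousLinearMap.add_apply, ContinuousLinearMap.smul_apply, smul_eq_mul]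
  ring

lemma T_norm_zero (u : A) : ‖T L R D u 0‖ ≤ ‖D‖ * ‖u‖ * (‖R‖ * ‖u‖) := by
  have : T L R D u 0 = (D u).comp (R u) := by
    ext x
    simp [T_apply]
  rw [this]
  refine (ContinuousLinearMap.opNorm_comp_le _ _).trans ?_
  exact mul_le_mul (D.le_opNorm u) (R.le_opNorm u) (norm_nonneg _) (by positivity)

lemma avg_norm {φ ψ : X →L[ℂ] ℂ} {r : ℝ} (h1 : ‖φ‖ ≤ r) (h2 : ‖ψ‖ ≤ r) :
    ‖(1 / 2 : ℂ) • (φ + ψ)‖ ≤ r := by
  rw [norm_smul]
  have : ‖(1 / 2 : ℂ)‖ = 1 / 2 := by simp
  rw [this]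
  have := norm_add_le φ ψ
  linarith

/-- Averages over finitely many involutions. -/
lemma fin_avg (hL : ∀ (a b : A) (x : X), L (a * b) x = L a (L b x))
    (hR : ∀ (a b : A) (x : X), R (a * b) x = R b (R a x))
    (hLR : ∀ (a b : A) (x : X), L a (R b x) = R b (L a x))
    (hD : ∀ a b : A, D (a * b) = (D b).comp (R a) + (D a).comp (L b))
    (hc : ∀ a b : A, a * b = b * a) (e : A) (he : e * e = e) (M : ℝ)
    (hM : ∀ u ∈ Inv e, ‖u‖ ≤ M) (S : Finset (Inv e)) :
    ∃ φ : X →L[ℂ] ℂ, (∀ u ∈ S, T L R D (u : A) φ = φ) ∧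
      (∀ u ∈ Inv e, ‖T L R D u φ‖ ≤ ‖D‖ * M * (‖R‖ * M)) ∧ T L R D e φ = φ := by
  classical
  have heI : e ∈ Inv e := ⟨he, he⟩
  have hM0 : 0 ≤ M := (norm_nonneg _).trans (hM e heI)
  have hue : ∀ u ∈ Inv e, ∀ v ∈ Inv e, u * v * v = u := by
    intro u hu v hv
    rw [mul_assoc, hv.1, hc u e, hu.2]
  have hmul : ∀ u ∈ Inv e, ∀ v ∈ Inv e, u * v ∈ Inv e := by
    intro u hu v hv
    refine ⟨?_, ?_⟩
    · have : u * v * (u * v) = u * u * (v * v) := by
        rw [mul_assoc, ← mul_assoc v u v, hc v u, mul_assoc u v v, ← mul_assoc]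
      rw [this, hu.1, hv.1, he]
    · rw [← mul_assoc, hu.2]
  have hzero : ∀ u ∈ Inv e, ‖T L R D u 0‖ ≤ ‖D‖ * M * (‖R‖ * M) := by
    intro u hu
    refine (T_norm_zero L R D u).trans ?_
    have := hM u hu
    gcongr
  induction S using Finset.induction_on with
  | empty =>
    refine ⟨T L R D e 0, by simp, ?_, ?_⟩
    · intro u hu
      rw [T_mul L R D hL hR hLR hD hc u e (hue u hu e heI), hc u e, hu.2]
      exact hzero u hu
    · rw [T_mul L R D hL hR hLR hD hc e e (hue e heI e heI), he]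
  | insert v S hv ih =>
    obtain ⟨φ, h1, h2, h3⟩ := ih
    have hvI : (v : A) ∈ Inv e := v.2
    refine ⟨(1 / 2 : ℂ) • (φ + T L R D (v : A) φ), ?_, ?_, ?_⟩
    · intro u hu
      rw [Finset.mem_insert] at hu
      rw [T_avg]
      rcases hu with rfl | hu
      · rw [T_mul L R D hL hR hLR hD hc _ _ (hue _ hvI _ hvI), hvI.1, h3, add_comm]
      · rw [h1 u hu, T_mul L R D hL hR hLR hD hc _ _ (hue _ u.2 _ hvI), hc,
          ← T_mul L R D hL hR hLR hD hc _ _ (hue _ hvI _ u.2), h1 u hu]
    · intro u hu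
      rw [T_avg]
      refine avg_norm (h2 u hu) ?_
      rw [T_mul L R D hL hR hLR hD hc _ _ (hue _ hu _ hvI)]
      exact h2 _ (hmul _ hu _ hvI)
    · rw [T_avg, h3, T_mul L R D hL hR hLR hD hc _ _ (hue _ heI _ hvI), hvI.2]

/-- Innerness on all involutions over `e`, by weak star compactness. -/
lemma inner_inv (hL : ∀ (a b : A) (x : X), L (a * b) x = L a (L b x))
    (hR : ∀ (a b : A) (x : X), R (a * b) x = R b (R a x))
    (hLR : ∀ (a b : A) (x : X), L a (R b x) = R b (L a x))
    (hD : ∀ a b : A, D (a * b) = (D b).comp (R a) + (D a).comp (L b))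
    (hc : ∀ a b : A, a * b = b * a) (e : A) (he : e * e = e) (M : ℝ)
    (hM : ∀ u ∈ Inv e, ‖u‖ ≤ M) :
    ∃ φ : X →L[ℂ] ℂ, ∀ u ∈ Inv e, ∀ x, φ (R u x) - φ (L u x) = D u (R e x) := by
  set r : ℝ := ‖D‖ * M * (‖R‖ * M) with hr
  have hK := WeakDual.isCompact_closedBall (𝕜 := ℂ) (0 : StrongDual ℂ X) r
  have key := hK.inter_iInter_nonempty (ι := Inv e)
    (fun u => {φ : WeakDual ℂ X | ∀ x, φ (R (u : A) x) - φ (L (u : A) x) = D (u : A) (R e x)})
    (by
      intro u
      simp only [Set.setOf_forall]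
      refine isClosed_iInter fun x => ?_
      exact isClosed_eq ((WeakDual.eval_continuous _).sub (WeakDual.eval_continuous _))
        continuous_const)
    (by
      intro S
      obtain ⟨φ, h1, h2, h3⟩ := fin_avg L R D hL hR hLR hD hc e he M hM S
      have heI : e ∈ Inv e := ⟨he, he⟩
      have hφe : ∀ z, φ (R e z) = φ z := by
        intro z
        have h4 : R e (R e z) = R e z := by rw [← hR, he]
        have h5 := DFunLike.congr_fun h3 z
        have h6 := DFunLike.congr_fun h3 (R e z)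
        rw [T_apply] at h5 h6
        rw [h4] at h6
        rw [← h6, h5]
      refine ⟨StrongDual.toWeakDual φ, ?_, ?_⟩
      · have h4 := h2 e heI
        rw [h3] at h4
        simpa [Metric.mem_closedBall, dist_zero_right] using h4
      · simp only [Set.mem_iInter]
        intro u hu x
        have h4 := DFunLike.congr_fun (h1 u hu) (R (u : A) x)
        rw [T_apply] at h4
        have h5 : R (u : A) (R (u : A) x) = R e x := by rw [← hR, u.2.1]
        rw [h5, hLR, hφe] at h4
        change φ (R (u : A) x) - φ (L (u : A) x) = D (u : A) (R e x)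
        rw [← h4]
        ring)
  obtain ⟨φ, -, h⟩ := key
  simp only [Set.mem_iInter] at h
  exact ⟨WeakDual.toStrongDual φ, fun u hu x => h ⟨u, hu⟩ x⟩

/-- Local innerness on `e A`. -/
lemma inner_local (hL : ∀ (a b : A) (x : X), L (a * b) x = L a (L b x))
    (hR : ∀ (a b : A) (x : X), R (a * b) x = R b (R a x))
    (hLR : ∀ (a b : A) (x : X), L a (R b x) = R b (L a x))
    (hD : ∀ a b : A, D (a * b) = (D b).comp (R a) + (D a).comp (L b))
    (hc : ∀ a b : A, a * b = b * a) (e : A) (he : e * e = e) (M : ℝ)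
    (hM : ∀ u ∈ Inv e, ‖u‖ ≤ M)
    (hdense : ∀ a : A, a ∈ closure (Submodule.span ℂ {p : A | p * p = p} : Set A)) :
    ∃ φ : X →L[ℂ] ℂ, ∀ (a : A) (x : X), φ (R (e * a) x) - φ (L (e * a) x) = D (e * a) x := by
  obtain ⟨φ, hφ⟩ := inner_inv L R D hL hR hLR hD hc e he M hM
  have heI : e ∈ Inv e := ⟨he, he⟩
  have h1 : ∀ (a : A) (x : X), φ (R (e * a) x) - φ (L (e * a) x) = D (e * a) (R e x) := by
    let W : Submodule ℂ A :=
      { carrier := {a | ∀ x, φ (R (e * a) x) - φ (L (e * a) x) = D (e * a) (R e x)}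
        add_mem' := by
          intro a b ha hb x
          have := ha x
          have := hb x
          simp only [mul_add, map_add, _root_.add_apply]
          linear_combination ha x + hb x
        zero_mem' := by
          intro x
          simp
        smul_mem' := by
          intro c a ha x
          simp only [mul_smul_comm, map_smul, _root_.smul_apply, smul_eq_mul]
          linear_combination c * ha x }
    have hWc : IsClosed (W : Set A) := by
      change IsClosed {a : A | ∀ x, φ (R (e * a) x) - φ (L (e * a) x) = D (e * a) (R e x)}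
      have : {a : A | ∀ x, φ (R (e * a) x) - φ (L (e * a) x) = D (e * a) (R e x)} =
          ⋂ x, {a : A | φ (R (e * a) x) - φ (L (e * a) x) = D (e * a) (R e x)} := by
        ext a
        simp
      rw [this]
      refine isClosed_iInter fun x => isClosed_eq ?_ ?_
      · fun_prop
      · fun_prop
    have hspan : Submodule.span ℂ {p : A | p * p = p} ≤ W := by
      rw [Submodule.span_le]
      intro q hq x
      have hq' : q * q = q := hq
      have hm : (e * q) * (e * q) = e * q := by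
        rw [mul_assoc, ← mul_assoc q e q, hc q e, mul_assoc e q q, hq', ← mul_assoc, he]
      have heq : e * (e * q) = e * q := by rw [← mul_assoc, he]
      have hqe : (e * q) * e = e * q := by rw [hc, heq]
      have hu : (2 : ℂ) • (e * q) - e ∈ Inv e := by
        refine ⟨?_, ?_⟩
        · rw [sub_mul, mul_sub, mul_sub, smul_mul_assoc, mul_smul_comm, smul_mul_assoc,
            mul_smul_comm, hm, hqe, heq, he]
          module
        · rw [mul_sub, mul_smul_comm, heq, he]
      have h2 := hφ _ hu x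
      have h3 := hφ _ heI x
      simp only [map_sub, map_smul, _root_.sub_apply, _root_.smul_apply, smul_eq_mul] at h2
      linear_combination (1 / 2 : ℂ) * h2 + (1 / 2 : ℂ) * h3
    intro a x
    have : a ∈ (W : Set A) := closure_minimal hspan hWc (hdense a)
    exact this x
  refine ⟨φ - (D e).comp (L e), ?_⟩
  intro a x
  have hbe : (e * a) * e = e * a := by rw [hc, ← mul_assoc, he]
  have heb : e * (e * a) = e * a := by rw [← mul_assoc, he]
  have h2 : D e (L e (R (e * a) x)) = 0 := by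
    have h3 := DFunLike.congr_fun (hD (e * a) e) (L e x)
    rw [hbe] at h3
    simp only [_root_.add_apply, ContinuousLinearMap.comp_apply] at h3
    have h4 : L e (L e x) = L e x := by rw [← hL, he]
    rw [h4] at h3
    rw [hLR]
    linear_combination -h3
  have h3 := DFunLike.congr_fun (hD e (e * a)) x
  rw [heb] at h3
  simp only [_root_.add_apply, ContinuousLinearMap.comp_apply] at h3
  have h4 : L e (L (e * a) x) = L (e * a) x := by rw [← hL, heb]
  simp only [_root_.sub_apply, ContinuousLinearMap.comp_apply]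
  rw [h2, h4]
  linear_combination h1 a x - h3

/-- The functional `psi` controls the inner derivation on the whole algebra. -/
lemma inner_global (hL : ∀ (a b : A) (x : X), L (a * b) x = L a (L b x))
    (hR : ∀ (a b : A) (x : X), R (a * b) x = R b (R a x))
    (hLR : ∀ (a b : A) (x : X), L a (R b x) = R b (L a x))
    (hD : ∀ a b : A, D (a * b) = (D b).comp (R a) + (D a).comp (L b))
    (hc : ∀ a b : A, a * b = b * a) (e : A) (he : e * e = e) (M : ℝ)
    (hM : ∀ u ∈ Inv e, ‖u‖ ≤ M)
    (hdense : ∀ a : A, a ∈ closure (Submodule.span ℂ {p : A | p * p = p} : Set A)) :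
    ∃ ψ : X →L[ℂ] ℂ, ∀ a : A, ψ.comp (R a) - ψ.comp (L a) =
      D (e * a) + (D (a - e * a)).comp (L e) + (D (a - e * a)).comp (R e) := by
  obtain ⟨φ, hφ⟩ := inner_local L R D hL hR hLR hD hc e he M hM hdense
  refine ⟨φ.comp (R e) + φ.comp (L e) - φ.comp ((L e).comp (R e)), ?_⟩
  intro a
  ext x
  have hee : ∀ y, φ (R e y) - φ (L e y) = D e y := by
    intro y
    have := hφ e y
    rwa [he] at this
  set c : A := a - e * a with hcdef
  have hec : e * c = 0 := by rw [hcdef, mul_sub, ← mul_assoc, he, sub_self]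
  have hce : c * e = 0 := by rw [hc, hec]
  -- auxiliary identities
  have h1 : φ (L e (R c x)) = D c (L e x) := by
    have h2 := hee (R c x)
    have h3 : R e (R c x) = 0 := by rw [← hR, hce]; simp
    have h4 := DFunLike.congr_fun (hD c e) x
    rw [hce] at h4
    simp only [map_zero, _root_.zero_apply, _root_.add_apply,
      ContinuousLinearMap.comp_apply] at h4
    rw [h3, map_zero] at h2
    linear_combination -h2 + h4
  have h2 : φ (R e (L c x)) = - D c (R e x) := by
    have h2 := hee (L c x)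
    have h3 : L e (L c x) = 0 := by rw [← hL, hec]; simp
    have h4 := DFunLike.congr_fun (hD e c) x
    rw [hec] at h4
    simp only [map_zero, _root_.zero_apply, _root_.add_apply,
      ContinuousLinearMap.comp_apply] at h4
    rw [h3, map_zero] at h2
    linear_combination h2 - h4
  have hb := hφ a x
  have hRa : R e (R a x) = R (e * a) x := by rw [← hR, hc a e]
  have hLa : L e (L a x) = L (e * a) x := by rw [← hL]
  have hRc : R c x = R a x - R (e * a) x := by rw [hcdef, map_sub]; rfl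
  have hLc : L c x = L a x - L (e * a) x := by rw [hcdef, map_sub]; rfl
  rw [hRc, map_sub, map_sub] at h1
  rw [hLc, map_sub, map_sub] at h2
  have h5 : L e (R e (L a x)) = R e (L (e * a) x) := by
    rw [hLR, hLa]
  simp only [_root_.sub_apply, _root_.add_apply, ContinuousLinearMap.comp_apply]
  rw [hRa, hLa, h5]
  linear_combination hb + h1 - h2

/-- Bounded approximate amenability. -/
theorem baa (hL : ∀ (a b : A) (x : X), L (a * b) x = L a (L b x))
    (hR : ∀ (a b : A) (x : X), R (a * b) x = R b (R a x))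
    (hLR : ∀ (a b : A) (x : X), L a (R b x) = R b (L a x))
    (hD : ∀ a b : A, D (a * b) = (D b).comp (R a) + (D a).comp (L b))
    (hc : ∀ a b : A, a * b = b * a) (e : ℕ → A) (he : ∀ n, e n * e n = e n)
    (hen : ∀ n, ‖e n‖ ≤ 1)
    (hM : ∀ n, ∃ M : ℝ, ∀ u ∈ Inv (e n), ‖u‖ ≤ M)
    (hdense : ∀ a : A, a ∈ closure (Submodule.span ℂ {p : A | p * p = p} : Set A))
    (hlim : ∀ a : A, Tendsto (fun n => e n * a) atTop (𝓝 a)) :
    ∃ C : ℝ, ∀ (F : Finset A) (ε : ℝ), 0 < ε →
      ∃ f : X →L[ℂ] ℂ,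
        (∀ a : A, ‖f.comp (R a) - f.comp (L a)‖ ≤ C * ‖a‖) ∧
        ∀ a ∈ F, ‖D a - (f.comp (R a) - f.comp (L a))‖ < ε := by
  refine ⟨‖D‖ * (1 + 2 * ‖L‖ + 2 * ‖R‖), ?_⟩
  intro F ε hε
  set K : ℝ := ‖D‖ * (1 + ‖L‖ + ‖R‖) + 1 with hK
  have hK0 : 0 < K := by positivity
  have hev : ∀ᶠ n in atTop, ∀ a ∈ F, ‖a - e n * a‖ < ε / K := by
    rw [Filter.eventually_all_finset]
    intro a _
    have h1 : Tendsto (fun n => ‖a - e n * a‖) atTop (𝓝 0) := by
      have := (tendsto_const_nhds (x := a)).sub (hlim a)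
      rw [sub_self] at this
      exact tendsto_zero_iff_norm_tendsto_zero.mp this
    exact h1.eventually_lt_const (by positivity)
  obtain ⟨n, hn⟩ := hev.exists
  obtain ⟨M, hMn⟩ := hM n
  obtain ⟨ψ, hψ⟩ := inner_global L R D hL hR hLR hD hc (e n) (he n) M hMn hdense
  have hbound : ∀ c : A, ‖(D c).comp (L (e n))‖ ≤ ‖D‖ * ‖c‖ * ‖L‖ := by
    intro c
    refine (ContinuousLinearMap.opNorm_comp_le _ _).trans ?_
    have h1 := D.le_opNorm c
    have h2 : ‖L (e n)‖ ≤ ‖L‖ := by
      refine (L.le_opNorm _).trans ?_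
      exact mul_le_of_le_one_right (norm_nonneg _) (hen n)
    gcongr
  have hbound' : ∀ c : A, ‖(D c).comp (R (e n))‖ ≤ ‖D‖ * ‖c‖ * ‖R‖ := by
    intro c
    refine (ContinuousLinearMap.opNorm_comp_le _ _).trans ?_
    have h1 := D.le_opNorm c
    have h2 : ‖R (e n)‖ ≤ ‖R‖ := by
      refine (R.le_opNorm _).trans ?_
      exact mul_le_of_le_one_right (norm_nonneg _) (hen n)
    gcongr
  refine ⟨ψ, ?_, ?_⟩
  · intro a
    rw [hψ a]
    have h0 : ‖e n * a‖ ≤ ‖a‖ :=
      (norm_mul_le _ _).trans (mul_le_of_le_one_left (norm_nonneg _) (hen n))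
    have h1 : ‖a - e n * a‖ ≤ 2 * ‖a‖ := by
      refine (norm_sub_le _ _).trans ?_
      linarith
    have h2 := D.le_opNorm (e n * a)
    have h3 := hbound (a - e n * a)
    have h4 := hbound' (a - e n * a)
    refine (norm_add_le _ _).trans ?_
    refine (add_le_add (norm_add_le _ _) le_rfl).trans ?_
    have h5 : ‖D‖ * ‖e n * a‖ ≤ ‖D‖ * ‖a‖ := by gcongr
    have h6 : ‖D‖ * ‖a - e n * a‖ * ‖L‖ ≤ ‖D‖ * (2 * ‖a‖) * ‖L‖ := by gcongr
    have h7 : ‖D‖ * ‖a - e n * a‖ * ‖R‖ ≤ ‖D‖ * (2 * ‖a‖) * ‖R‖ := by gcongr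
    have h8 : ‖D‖ * (1 + 2 * ‖L‖ + 2 * ‖R‖) * ‖a‖ =
        ‖D‖ * ‖a‖ + ‖D‖ * (2 * ‖a‖) * ‖L‖ + ‖D‖ * (2 * ‖a‖) * ‖R‖ := by ring
    linarith
  · intro a ha
    have hd : ‖a - e n * a‖ < ε / K := hn a ha
    have h1 : D a - (ψ.comp (R a) - ψ.comp (L a)) =
        D (a - e n * a) - (D (a - e n * a)).comp (L (e n)) -
          (D (a - e n * a)).comp (R (e n)) := by
      rw [hψ a]
      simp only [map_sub]
      abel
    rw [h1]
    have h2 := D.le_opNorm (a - e n * a)
    have h3 := hbound (a - e n * a)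
    have h4 := hbound' (a - e n * a)
    have h5 : ‖D (a - e n * a) - (D (a - e n * a)).comp (L (e n)) -
          (D (a - e n * a)).comp (R (e n))‖ ≤ K * ‖a - e n * a‖ := by
      refine (norm_sub_le _ _).trans ?_
      refine (add_le_add (norm_sub_le _ _) le_rfl).trans ?_
      have h8 : K * ‖a - e n * a‖ = ‖D‖ * ‖a - e n * a‖ + ‖D‖ * ‖a - e n * a‖ * ‖L‖ +
          ‖D‖ * ‖a - e n * a‖ * ‖R‖ + ‖a - e n * a‖ := by rw [hK]; ring
      have := norm_nonneg (a - e n * a)
      linarith
    refine h5.trans_lt ?_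
    calc K * ‖a - e n * a‖ < K * (ε / K) := by gcongr
      _ = ε := by field_simp

end abstract

end Pool.Agent.H7.BAA
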