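import Mathlib

/-!
The Banach algebra of pairs `(s,t)` of `C_0` functions on `N x (N u {infinity})` with product
`(s s', s t' + s' t + w t t')`, `w(n,x) = 1/(n+1)`, and norm `|s| + |t|`.
-/

set_option autoImplicit false
set_option linter.unusedSectionVars false

open Filter Topology ZeroAtInfty

namespace Pool.Agent.H7.BAA

abbrev Z : Type := ℕ × OnePoint ℕ
abbrev C0 : Type := C₀(Z, ℂ)

lemma C0_norm_le (f : C0) {r : ℝ} (hr : 0 ≤ r) (h : ∀ z, ‖f z‖ ≤ r) : ‖f‖ ≤ r := by
  rw [← ZeroAtInftyContinuousMap.norm_toBCF_eq_norm]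
  exact (BoundedContinuousFunction.norm_le hr).2 h

lemma C0_le_norm (f : C0) (z : Z) : ‖f z‖ ≤ ‖f‖ := by
  rw [← ZeroAtInftyContinuousMap.norm_toBCF_eq_norm]
  exact f.toBCF.norm_coe_le_norm z

/-- Compact sets are contained in finitely many levels. -/
lemma compact_levels (N : ℕ) : IsCompact {z : Z | z.1 ≤ N} := by
  have h : {z : Z | z.1 ≤ N} = (Set.Iic N) ×ˢ (Set.univ : Set (OnePoint ℕ)) := by
    ext z
    simp
  rw [h]
  exact (Set.finite_Iic N).isCompact.prod isCompact_univ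

lemma tendsto_of_levels (f : Z → ℂ) (h : ∀ δ > 0, ∃ N : ℕ, ∀ z : Z, N < z.1 → ‖f z‖ < δ) :
    Tendsto f (cocompact Z) (𝓝 0) := by
  rw [Metric.tendsto_nhds]
  intro δ hδ
  obtain ⟨N, hN⟩ := h δ hδ
  rw [Filter.eventually_iff, Filter.mem_cocompact]
  refine ⟨{z : Z | z.1 ≤ N}, compact_levels N, ?_⟩
  intro z hz
  simp only [Set.mem_compl_iff, Set.mem_ofPred_eq, not_le] at hz
  simpa using hN z hz

/-- The weight. -/
noncomputable def w : C0 where
  toFun z := ((z.1 : ℂ) + 1)⁻¹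
  continuous_toFun := by
    have : Continuous (fun n : ℕ => ((n : ℂ) + 1)⁻¹) := continuous_of_discreteTopology
    exact this.comp continuous_fst
  zero_at_infty' := by
    apply tendsto_of_levels
    intro δ hδ
    obtain ⟨N, hN⟩ := exists_nat_gt (1 / δ)
    refine ⟨N, ?_⟩
    intro z hz
    have h1 : ((z.1 : ℂ) + 1) = (((z.1 : ℝ) + 1 : ℝ) : ℂ) := by push_cast; rfl
    rw [norm_inv, h1, Complex.norm_real, Real.norm_of_nonneg (by positivity)]
    have h2 : (N : ℝ) < (z.1 : ℝ) := by exact_mod_cast hz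
    have h3 : 1 / δ < (z.1 : ℝ) + 1 := by linarith
    rw [inv_lt_comm₀ (by positivity) hδ]
    rw [one_div] at h3
    exact h3

lemma w_apply (z : Z) : w z = ((z.1 : ℂ) + 1)⁻¹ := rfl

lemma w_norm_apply (z : Z) : ‖w z‖ = ((z.1 : ℝ) + 1)⁻¹ := by
  have h1 : ((z.1 : ℂ) + 1) = (((z.1 : ℝ) + 1 : ℝ) : ℂ) := by push_cast; rfl
  rw [w_apply, norm_inv, h1, Complex.norm_real, Real.norm_of_nonneg (by positivity)]

lemma w_norm : ‖w‖ ≤ 1 := by
  refine C0_norm_le w zero_le_one fun z => ?_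
  rw [w_norm_apply]
  apply inv_le_one_of_one_le₀
  have : (0 : ℝ) ≤ (z.1 : ℝ) := Nat.cast_nonneg _
  linarith

/-- The carrier. -/
def TA : Type := WithLp 1 (C0 × C0)

noncomputable instance instNG : NormedAddCommGroup TA :=
  inferInstanceAs (NormedAddCommGroup (WithLp 1 (C0 × C0)))

noncomputable instance instNS : NormedSpace ℂ TA :=
  inferInstanceAs (NormedSpace ℂ (WithLp 1 (C0 × C0)))

instance instCS : CompleteSpace TA :=
  inferInstanceAs (CompleteSpace (WithLp 1 (C0 × C0)))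

namespace TA

/-- Constructor. -/
def mk (s t : C0) : TA := WithLp.toLp 1 (s, t)

/-- First coordinate. -/
def s (a : TA) : C0 := WithLp.fst a

/-- Second coordinate. -/
def t (a : TA) : C0 := WithLp.snd a

@[simp] lemma s_mk (f g : C0) : (mk f g).s = f := rfl
@[simp] lemma t_mk (f g : C0) : (mk f g).t = g := rfl
@[simp] lemma mk_eta (a : TA) : mk a.s a.t = a := rfl

lemma ext' {a b : TA} (h1 : a.s = b.s) (h2 : a.t = b.t) : a = b := by
  rw [← mk_eta a, ← mk_eta b, h1, h2]

@[simp] lemma s_add (a b : TA) : (a + b).s = a.s + b.s := rfl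
@[simp] lemma t_add (a b : TA) : (a + b).t = a.t + b.t := rfl
@[simp] lemma s_sub (a b : TA) : (a - b).s = a.s - b.s := rfl
@[simp] lemma t_sub (a b : TA) : (a - b).t = a.t - b.t := rfl
@[simp] lemma s_neg (a : TA) : (-a).s = -a.s := rfl
@[simp] lemma t_neg (a : TA) : (-a).t = -a.t := rfl
@[simp] lemma s_zero : (0 : TA).s = 0 := rfl
@[simp] lemma t_zero : (0 : TA).t = 0 := rfl
@[simp] lemma s_smul (c : ℂ) (a : TA) : (c • a).s = c • a.s := rfl
@[simp] lemma t_smul (c : ℂ) (a : TA) : (c • a).t = c • a.t := rfl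

lemma norm_def (a : TA) : ‖a‖ = ‖a.s‖ + ‖a.t‖ := WithLp.prod_norm_eq_of_L1 a

end TA

open TA

noncomputable instance instMul : Mul TA :=
  ⟨fun a b => mk (a.s * b.s) (a.s * b.t + b.s * a.t + w * (a.t * b.t))⟩

namespace TA

@[simp] lemma s_mul (a b : TA) : (a * b).s = a.s * b.s := rfl
@[simp] lemma t_mul (a b : TA) : (a * b).t = a.s * b.t + b.s * a.t + w * (a.t * b.t) := rfl

end TA

lemma TA_norm_mul (a b : TA) : ‖a * b‖ ≤ ‖a‖ * ‖b‖ := by
  rw [norm_def, norm_def a, norm_def b, s_mul, t_mul]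
  have h1 : ‖a.s * b.s‖ ≤ ‖a.s‖ * ‖b.s‖ := norm_mul_le _ _
  have h2 : ‖a.s * b.t‖ ≤ ‖a.s‖ * ‖b.t‖ := norm_mul_le _ _
  have h3 : ‖b.s * a.t‖ ≤ ‖b.s‖ * ‖a.t‖ := norm_mul_le _ _
  have h4 : ‖w * (a.t * b.t)‖ ≤ ‖a.t‖ * ‖b.t‖ := by
    refine (norm_mul_le _ _).trans ?_
    refine (mul_le_of_le_one_left (norm_nonneg _) w_norm).trans ?_
    exact norm_mul_le _ _
  have h5 : ‖a.s * b.t + b.s * a.t + w * (a.t * b.t)‖ ≤
      ‖a.s * b.t‖ + ‖b.s * a.t‖ + ‖w * (a.t * b.t)‖ := norm_add₃_le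
  nlinarith

noncomputable instance instNR : NonUnitalNormedRing TA :=
  { (inferInstance : NormedAddCommGroup TA) with
    mul := (· * ·)
    left_distrib := by
      intro a b c
      apply ext'
      · simp [mul_add]
      · ext z
        simp only [t_mul, s_add, t_add, ZeroAtInftyContinuousMap.coe_add,
          ZeroAtInftyContinuousMap.coe_mul, Pi.add_apply, Pi.mul_apply]
        ring
    right_distrib := by
      intro a b c
      apply ext'
      · simp [add_mul]
      · ext z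
        simp only [t_mul, s_add, t_add, ZeroAtInftyContinuousMap.coe_add,
          ZeroAtInftyContinuousMap.coe_mul, Pi.add_apply, Pi.mul_apply]
        ring
    zero_mul := by
      intro a
      apply ext' <;> simp
    mul_zero := by
      intro a
      apply ext' <;> simp
    mul_assoc := by
      intro a b c
      apply ext'
      · simp [mul_assoc]
      · ext z
        simp only [t_mul, s_mul, ZeroAtInftyContinuousMap.coe_add,
          ZeroAtInftyContinuousMap.coe_mul, Pi.add_apply, Pi.mul_apply]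
        ring
    norm_mul_le := TA_norm_mul }

lemma TA_comm (a b : TA) : a * b = b * a := by
  apply ext'
  · simp [mul_comm]
  · ext z
    simp only [t_mul, ZeroAtInftyContinuousMap.coe_add,
      ZeroAtInftyContinuousMap.coe_mul, Pi.add_apply, Pi.mul_apply]
    ring

instance instST : IsScalarTower ℂ TA TA := ⟨by
  intro c a b
  apply ext'
  · ext z; simp [mul_assoc]
  · ext z
    simp only [smul_eq_mul, t_mul, s_smul, t_smul, ZeroAtInftyContinuousMap.coe_add,
      ZeroAtInftyContinuousMap.coe_mul, ZeroAtInftyContinuousMap.coe_smul, Pi.add_apply,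
      Pi.mul_apply, Pi.smul_apply]
    ring⟩

instance instSC : SMulCommClass ℂ TA TA := ⟨by
  intro c a b
  apply ext'
  · ext z
    simp only [smul_eq_mul, s_mul, s_smul,
      ZeroAtInftyContinuousMap.coe_mul, ZeroAtInftyContinuousMap.coe_smul,
      Pi.mul_apply, Pi.smul_apply]
    ring
  · ext z
    simp only [smul_eq_mul, t_mul, s_smul, t_smul, ZeroAtInftyContinuousMap.coe_add,
      ZeroAtInftyContinuousMap.coe_mul, ZeroAtInftyContinuousMap.coe_smul, Pi.add_apply,
      Pi.mul_apply, Pi.smul_apply]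
    ring⟩

end Pool.Agent.H7.BAA
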