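import Pool.Agent.H7.BAA.Alg
import Pool.Agent.H7.BAA.Abstract

set_option autoImplicit false
set_option linter.unusedSectionVars false

open Filter Topology ZeroAtInfty

namespace Pool.Agent.H7.BAA

open TA

/-- Indicator functions. -/
noncomputable def ind (U : Set Z) (hU : IsClopen U) (hN : ∃ N : ℕ, ∀ z ∈ U, z.1 ≤ N) : C0 where
  toFun := U.indicator (fun _ => 1)
  continuous_toFun := hU.continuous_indicator continuous_const
  zero_at_infty' := by
    apply tendsto_of_levels
    intro δ hδ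
    obtain ⟨N, hN⟩ := hN
    refine ⟨N, fun z hz => ?_⟩
    have : z ∉ U := fun h => absurd (hN z h) (by omega)
    simp [this, hδ]

lemma ind_apply (U : Set Z) (hU : IsClopen U) (hN : ∃ N : ℕ, ∀ z ∈ U, z.1 ≤ N) (z : Z) :
    ind U hU hN z = U.indicator (fun _ => (1 : ℂ)) z := rfl

lemma ind_mem (U : Set Z) (hU : IsClopen U) (hN : ∃ N : ℕ, ∀ z ∈ U, z.1 ≤ N) {z : Z}
    (hz : z ∈ U) : ind U hU hN z = 1 := by
  rw [ind_apply, Set.indicator_of_mem hz]

lemma ind_notMem (U : Set Z) (hU : IsClopen U) (hN : ∃ N : ℕ, ∀ z ∈ U, z.1 ≤ N) {z : Z}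
    (hz : z ∉ U) : ind U hU hN z = 0 := by
  rw [ind_apply, Set.indicator_of_notMem hz]

lemma ind_mul_self (U : Set Z) (hU : IsClopen U) (hN : ∃ N : ℕ, ∀ z ∈ U, z.1 ≤ N) :
    ind U hU hN * ind U hU hN = ind U hU hN := by
  ext z
  by_cases hz : z ∈ U
  · simp [ind_mem U hU hN hz]
  · simp [ind_notMem U hU hN hz]

lemma clopen_pre (P : Set ℕ) : IsClopen {z : Z | z.1 ∈ P} :=
  (isClopen_discrete P).preimage continuous_fst

/-- All levels up to `n`. -/
noncomputable def iN (n : ℕ) : C0 :=
  ind {z : Z | z.1 ∈ Set.Iic n} (clopen_pre _) ⟨n, fun _ h => h⟩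

/-- One level. -/
noncomputable def iL (m : ℕ) : C0 :=
  ind {z : Z | z.1 ∈ ({m} : Set ℕ)} (clopen_pre _) ⟨m, fun _ h => le_of_eq h⟩

lemma clopen_pt (m k : ℕ) : IsClopen {z : Z | z.1 = m ∧ z.2 = ((k : ℕ) : OnePoint ℕ)} := by
  have h1 : IsClopen {z : Z | z.1 ∈ ({m} : Set ℕ)} := clopen_pre _
  have h2 : IsClopen ({((k : ℕ) : OnePoint ℕ)} : Set (OnePoint ℕ)) := by
    refine ⟨isClosed_singleton, ?_⟩
    have : ({((k : ℕ) : OnePoint ℕ)} : Set (OnePoint ℕ)) = ((↑) : ℕ → OnePoint ℕ) '' {k} := by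
      simp
    rw [this]
    exact OnePoint.isOpen_image_coe.2 (isOpen_discrete _)
  exact h1.inter (h2.preimage continuous_snd)

/-- One point. -/
noncomputable def iP (m k : ℕ) : C0 :=
  ind {z : Z | z.1 = m ∧ z.2 = ((k : ℕ) : OnePoint ℕ)} (clopen_pt m k)
    ⟨m, fun _ h => le_of_eq h.1⟩

lemma iN_of_le {n : ℕ} {z : Z} (h : z.1 ≤ n) : iN n z = 1 := ind_mem _ _ _ h
lemma iN_of_lt {n : ℕ} {z : Z} (h : n < z.1) : iN n z = 0 :=
  ind_notMem _ _ _ (by simpa using h)
lemma iL_eq {m : ℕ} {z : Z} (h : z.1 = m) : iL m z = 1 := ind_mem _ _ _ h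
lemma iL_ne {m : ℕ} {z : Z} (h : z.1 ≠ m) : iL m z = 0 := ind_notMem _ _ _ h
lemma iP_eq {m k : ℕ} : iP m k (m, ((k : ℕ) : OnePoint ℕ)) = 1 := ind_mem _ _ _ ⟨rfl, rfl⟩
lemma iP_ne {m k : ℕ} {z : Z} (h : ¬ (z.1 = m ∧ z.2 = ((k : ℕ) : OnePoint ℕ))) : iP m k z = 0 :=
  ind_notMem _ _ _ h

lemma iN_norm (n : ℕ) : ‖iN n‖ ≤ 1 := by
  refine C0_norm_le _ zero_le_one fun z => ?_
  by_cases h : z.1 ≤ n
  · simp [iN_of_le h]
  · simp [iN_of_lt (not_le.mp h)]

/-- Local units. -/
noncomputable def e (n : ℕ) : TA := mk (iN n) 0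

lemma e_idem (n : ℕ) : e n * e n = e n := by
  apply ext'
  · exact ind_mul_self {z : Z | z.1 ∈ Set.Iic n} (clopen_pre _) ⟨n, fun _ h => h⟩
  · simp [e]

lemma e_norm (n : ℕ) : ‖e n‖ ≤ 1 := by
  rw [norm_def]
  simpa [e] using iN_norm n

lemma iN_mul_tendsto (f : C0) : Tendsto (fun n => iN n * f) atTop (𝓝 f) := by
  rw [Metric.tendsto_atTop]
  intro δ hδ
  have h0 : Tendsto f (cocompact Z) (𝓝 0) := f.zero_at_infty'
  have h1 : ∀ᶠ z in cocompact Z, ‖f z‖ < δ / 2 := by
    have := (Metric.tendsto_nhds.mp h0) (δ / 2) (by positivity)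
    simpa using this
  rw [Filter.eventually_iff, Filter.mem_cocompact] at h1
  obtain ⟨K, hK, hKs⟩ := h1
  obtain ⟨N, hN⟩ : ∃ N : ℕ, ∀ z ∈ K, z.1 ≤ N := by
    have : BddAbove (Prod.fst '' K : Set ℕ) := (hK.image continuous_fst).bddAbove
    obtain ⟨N, hN⟩ := this
    exact ⟨N, fun z hz => hN ⟨z, hz, rfl⟩⟩
  refine ⟨N, fun n hn => ?_⟩
  rw [dist_eq_norm]
  refine lt_of_le_of_lt (C0_norm_le _ (by positivity : (0 : ℝ) ≤ δ / 2) fun z => ?_) (by linarith)
  by_cases h : z.1 ≤ n
  · simp only [ZeroAtInftyContinuousMap.coe_sub, ZeroAtInftyContinuousMap.coe_mul, Pi.sub_apply,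
      Pi.mul_apply, iN_of_le h, one_mul, sub_self, norm_zero]
    positivity
  · have hz : z ∉ K := fun hzK => h ((hN z hzK).trans hn)
    have := hKs hz
    simp only [ZeroAtInftyContinuousMap.coe_sub, ZeroAtInftyContinuousMap.coe_mul, Pi.sub_apply,
      Pi.mul_apply, iN_of_lt (not_le.mp h), zero_mul, zero_sub, norm_neg]
    exact le_of_lt this

lemma e_mul (n : ℕ) (a : TA) : e n * a = mk (iN n * a.s) (iN n * a.t) := by
  apply ext'
  · rfl
  · simp [e]

lemma norm_mk (f g : C0) : ‖mk f g‖ = ‖f‖ + ‖g‖ := norm_def _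

lemma e_tendsto (a : TA) : Tendsto (fun n => e n * a) atTop (𝓝 a) := by
  have h1 := (iN_mul_tendsto a.s)
  have h2 := (iN_mul_tendsto a.t)
  rw [tendsto_iff_norm_sub_tendsto_zero] at h1 h2 ⊢
  have h3 := h1.add h2
  rw [add_zero] at h3
  refine h3.congr fun n => ?_
  rw [e_mul, norm_def]
  rfl

/-- Bound for involutions. -/
lemma inv_bound (n : ℕ) : ∃ M : ℝ, ∀ u ∈ Inv (e n), ‖u‖ ≤ M := by
  refine ⟨1 + 2 * ((n : ℝ) + 1), ?_⟩
  intro u hu
  obtain ⟨h1, h2⟩ := hu
  have hs : ∀ z, u.s z * u.s z = iN n z := by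
    intro z
    have := congrArg (fun a : TA => a.s z) h1
    simpa [e] using this
  have ht : ∀ z, u.s z * u.t z + u.s z * u.t z + w z * (u.t z * u.t z) = 0 := by
    intro z
    have := congrArg (fun a : TA => a.t z) h1
    simpa [e] using this
  have hes : ∀ z, iN n z * u.s z = u.s z := by
    intro z
    have := congrArg (fun a : TA => a.s z) h2
    simpa [e_mul] using this
  have het : ∀ z, iN n z * u.t z = u.t z := by
    intro z
    have := congrArg (fun a : TA => a.t z) h2
    simpa only [e_mul, t_mk, ZeroAtInftyContinuousMap.coe_mul, Pi.mul_apply] using this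
  have hsn : ‖u.s‖ ≤ 1 := by
    refine C0_norm_le _ zero_le_one fun z => ?_
    by_cases hz : z.1 ≤ n
    · have h3 := hs z
      rw [iN_of_le hz] at h3
      have h4 : ‖u.s z‖ * ‖u.s z‖ = 1 := by rw [← norm_mul, h3, norm_one]
      nlinarith [norm_nonneg (u.s z)]
    · have h3 := hes z
      rw [iN_of_lt (not_le.mp hz), zero_mul] at h3
      rw [← h3]; simp
  have htn : ‖u.t‖ ≤ 2 * ((n : ℝ) + 1) := by
    refine C0_norm_le _ (by positivity) fun z => ?_
    by_cases hz : z.1 ≤ n
    · have h3 := ht z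
      have h4 : u.t z * (2 * u.s z + w z * u.t z) = 0 := by linear_combination h3
      rcases mul_eq_zero.mp h4 with h5 | h5
      · rw [h5, norm_zero]; positivity
      · have h6 : w z * u.t z = - (2 * u.s z) := by linear_combination h5
        have h7 : ‖w z‖ * ‖u.t z‖ = 2 * ‖u.s z‖ := by
          rw [← norm_mul, h6, norm_neg, norm_mul]; simp
        have h8 : ‖u.s z‖ ≤ 1 := (C0_le_norm _ _).trans hsn
        rw [w_norm_apply] at h7
        have h9 : (0 : ℝ) < (z.1 : ℝ) + 1 := by positivity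
        have h10 : ‖u.t z‖ = ((z.1 : ℝ) + 1) * (2 * ‖u.s z‖) := by
          rw [← h7]; field_simp
        rw [h10]
        have h11 : (z.1 : ℝ) ≤ (n : ℝ) := by exact_mod_cast hz
        nlinarith [norm_nonneg (u.s z)]
    · have h3 := het z
      rw [iN_of_lt (not_le.mp hz), zero_mul] at h3
      rw [← h3, norm_zero]; positivity
  rw [norm_def]
  linarith

/-- Evaluation. -/
noncomputable def ev (z : Z) : C0 →ₗ[ℂ] ℂ where
  toFun f := f z
  map_add' _ _ := rfl
  map_smul' _ _ := rfl

lemma ev_apply (z : Z) (f : C0) : ev z f = f z := rfl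

/-- Density of the indicator functions. -/
lemma C0_dense (V : Submodule ℂ C0) (hV : IsClosed (V : Set C0)) (hL : ∀ m, iL m ∈ V)
    (hP : ∀ m k, iP m k ∈ V) (f : C0) : f ∈ V := by
  -- one level
  have h1 : ∀ m, iL m * f ∈ V := by
    intro m
    let g : ℕ → C0 := fun K => f (m, OnePoint.infty) • iL m +
      ∑ k ∈ Finset.range K, (f (m, ((k : ℕ) : OnePoint ℕ)) - f (m, OnePoint.infty)) • iP m k
    have hg : ∀ K, g K ∈ V := by
      intro K
      refine V.add_mem (V.smul_mem _ (hL m)) (V.sum_mem fun k _ => V.smul_mem _ (hP m k))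
    have hlim : Tendsto g atTop (𝓝 (iL m * f)) := by
      rw [Metric.tendsto_atTop]
      intro δ hδ
      have hc : Continuous (fun x : OnePoint ℕ => f (m, x)) := by
        exact f.continuous.comp (by fun_prop)
      have ht : Tendsto (fun k : ℕ => f (m, ((k : ℕ) : OnePoint ℕ))) atTop
          (𝓝 (f (m, OnePoint.infty))) := by
        have h2 : Tendsto (fun k : ℕ => ((k : ℕ) : OnePoint ℕ)) atTop (𝓝 OnePoint.infty) := by
          have := OnePoint.tendsto_coe_infty (X := ℕ)
          rwa [Filter.coclosedCompact_eq_cocompact, cocompact_eq_atTop] at this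
        exact (hc.tendsto _).comp h2
      obtain ⟨K0, hK0⟩ := (Metric.tendsto_atTop.mp ht) (δ / 2) (by positivity)
      refine ⟨K0, fun K hK => ?_⟩
      rw [dist_eq_norm]
      refine lt_of_le_of_lt (C0_norm_le _ (by positivity : (0 : ℝ) ≤ δ / 2) fun z => ?_)
        (by linarith)
      have hval : g K z = f (m, OnePoint.infty) * iL m z +
          ∑ k ∈ Finset.range K, (f (m, ((k : ℕ) : OnePoint ℕ)) - f (m, OnePoint.infty)) *
            iP m k z := by
        change ev z (f (m, OnePoint.infty) • iL m +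
          ∑ k ∈ Finset.range K, (f (m, ((k : ℕ) : OnePoint ℕ)) - f (m, OnePoint.infty)) •
            iP m k) = _
        rw [map_add, map_smul, map_sum]
        simp only [map_smul, smul_eq_mul, ev_apply]
      have hsub : (g K - iL m * f) z = g K z - iL m z * f z := rfl
      rw [hsub, hval]
      obtain ⟨m', x⟩ := z
      by_cases hm : m' = m
      · subst hm
        rw [iL_eq (m := m') (z := (m', x)) rfl]
        induction x using OnePoint.rec with
        | infty =>
          have : ∀ k ∈ Finset.range K, (f (m', ((k : ℕ) : OnePoint ℕ)) - f (m', OnePoint.infty)) *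
            iP m' k (m', OnePoint.infty) = 0 := by
            intro k _
            rw [iP_ne (by simp), mul_zero]
          rw [Finset.sum_eq_zero this]
          simp only [mul_one, add_zero, one_mul, sub_self, norm_zero]
          positivity
        | coe j =>
          by_cases hj : j < K
          · rw [Finset.sum_eq_single_of_mem j (Finset.mem_range.mpr hj)]
            · rw [iP_eq]
              have : f (m', OnePoint.infty) * 1 + (f (m', ((j : ℕ) : OnePoint ℕ)) -
                f (m', OnePoint.infty)) * 1 - 1 * f (m', ((j : ℕ) : OnePoint ℕ)) = 0 := by ring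
              rw [this, norm_zero]; positivity
            · intro k _ hk
              rw [iP_ne (by simpa using fun h => hk h.symm), mul_zero]
          · have : ∀ k ∈ Finset.range K, (f (m', ((k : ℕ) : OnePoint ℕ)) -
              f (m', OnePoint.infty)) * iP m' k (m', ((j : ℕ) : OnePoint ℕ)) = 0 := by
              intro k hk
              have hk' := Finset.mem_range.mp hk
              rw [iP_ne (by simpa using fun h => by omega), mul_zero]
            rw [Finset.sum_eq_zero this]
            have h3 := hK0 j (by omega)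
            rw [dist_comm, dist_eq_norm] at h3
            simpa using le_of_lt h3
      · rw [iL_ne (by simpa using hm)]
        have : ∀ k ∈ Finset.range K, (f (m, ((k : ℕ) : OnePoint ℕ)) - f (m, OnePoint.infty)) *
            iP m k (m', x) = 0 := by
          intro k _
          rw [iP_ne (by simp [hm]), mul_zero]
        rw [Finset.sum_eq_zero this]
        simp only [mul_zero, zero_mul, add_zero, sub_zero, norm_zero]
        positivity
    exact hV.mem_of_tendsto hlim (Eventually.of_forall hg)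
  have h2 : ∀ n, iN n * f ∈ V := by
    intro n
    have : iN n * f = ∑ m ∈ Finset.range (n + 1), iL m * f := by
      ext z
      change iN n z * f z = ev z (∑ m ∈ Finset.range (n + 1), iL m * f)
      rw [map_sum]
      have h3 : ∀ m, ev z (iL m * f) = iL m z * f z := fun m => rfl
      simp only [h3]
      by_cases hz : z.1 ≤ n
      · rw [Finset.sum_eq_single_of_mem z.1 (Finset.mem_range.mpr (by omega)), iN_of_le hz,
          iL_eq rfl]
        intro m _ hm
        rw [iL_ne (fun h => hm h.symm), zero_mul]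
      · rw [iN_of_lt (not_le.mp hz), zero_mul, Finset.sum_eq_zero]
        intro m hm
        have hm' := Finset.mem_range.mp hm
        rw [iL_ne (by omega), zero_mul]
    rw [this]
    exact V.sum_mem fun m _ => h1 m
  exact hV.mem_of_tendsto (iN_mul_tendsto f) (Eventually.of_forall h2)

/-- `s -> (s,0)`. -/
noncomputable def mkL : C0 →L[ℂ] TA :=
  LinearMap.mkContinuous
    { toFun := fun f => mk f 0
      map_add' := fun f g => by apply ext' <;> simp
      map_smul' := fun c f => by apply ext' <;> simp } 1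
    (by intro f; simp [norm_mk])

/-- `t -> (0,t)`. -/
noncomputable def mkR : C0 →L[ℂ] TA :=
  LinearMap.mkContinuous
    { toFun := fun f => mk 0 f
      map_add' := fun f g => by apply ext' <;> simp
      map_smul' := fun c f => by apply ext' <;> simp } 1
    (by intro f; simp [norm_mk])

lemma mkL_apply (f : C0) : mkL f = mk f 0 := rfl
lemma mkR_apply (f : C0) : mkR f = mk 0 f := rfl

lemma mkL_idem (U : Set Z) (hU : IsClopen U) (hN : ∃ N : ℕ, ∀ z ∈ U, z.1 ≤ N) :
    mkL (ind U hU hN) * mkL (ind U hU hN) = mkL (ind U hU hN) := by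
  apply ext'
  · exact ind_mul_self U hU hN
  · simp [mkL_apply]

lemma mkR_idem (U : Set Z) (hU : IsClopen U) (hN : ∃ N : ℕ, ∀ z ∈ U, z.1 ≤ N) (m : ℕ)
    (hm : ∀ z ∈ U, z.1 = m) :
    mkR (((m : ℂ) + 1) • ind U hU hN) * mkR (((m : ℂ) + 1) • ind U hU hN) =
      mkR (((m : ℂ) + 1) • ind U hU hN) := by
  apply ext'
  · simp [mkR_apply]
  · ext z
    have hm0 : (m : ℂ) + 1 ≠ 0 := by exact_mod_cast Nat.succ_ne_zero m
    simp only [mkR_apply, t_mul, s_mk, t_mk, zero_mul, add_zero, zero_add,
      ZeroAtInftyContinuousMap.coe_mul, ZeroAtInftyContinuousMap.coe_smul, Pi.mul_apply,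
      Pi.smul_apply, smul_eq_mul]
    by_cases hz : z ∈ U
    · rw [ind_mem U hU hN hz, w_apply, hm z hz]
      field_simp
    · rw [ind_notMem U hU hN hz]
      ring

lemma TA_dense (a : TA) : a ∈ closure (Submodule.span ℂ {p : TA | p * p = p} : Set TA) := by
  set S : Submodule ℂ TA := (Submodule.span ℂ {p : TA | p * p = p}).topologicalClosure with hS
  have hScl : IsClosed (S : Set TA) := Submodule.isClosed_topologicalClosure _
  have hsub : ∀ p : TA, p * p = p → p ∈ S := fun p hp =>
    Submodule.le_topologicalClosure _ (Submodule.subset_span hp)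
  have h1 : ∀ f : C0, mkL f ∈ S := by
    intro f
    have := C0_dense (S.comap (mkL : C0 →ₗ[ℂ] TA)) (hScl.preimage mkL.continuous)
      (fun m => hsub _ (mkL_idem _ _ _)) (fun m k => hsub _ (mkL_idem _ _ _)) f
    exact this
  have h2 : ∀ f : C0, mkR f ∈ S := by
    intro f
    have key : ∀ (m : ℕ) (g : C0), mkR (((m : ℂ) + 1) • g) ∈ S → mkR g ∈ S := by
      intro m g hg
      have hm0 : (m : ℂ) + 1 ≠ 0 := by exact_mod_cast Nat.succ_ne_zero m
      have : mkR g = ((m : ℂ) + 1)⁻¹ • mkR (((m : ℂ) + 1) • g) := by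
        rw [map_smul, smul_smul, inv_mul_cancel₀ hm0, one_smul]
      rw [this]
      exact S.smul_mem _ hg
    have := C0_dense (S.comap (mkR : C0 →ₗ[ℂ] TA)) (hScl.preimage mkR.continuous)
      (fun m => key m _ (hsub _ (mkR_idem _ _ _ m (fun z hz => hz))))
      (fun m k => key m _ (hsub _ (mkR_idem _ _ _ m (fun z hz => hz.1)))) f
    exact this
  have h3 : a = mkL a.s + mkR a.t := by
    apply ext' <;> simp [mkL_apply, mkR_apply]
  have h4 : a ∈ S := by
    rw [h3]
    exact S.add_mem (h1 _) (h2 _)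
  exact h4

end Pool.Agent.H7.BAA
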