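import Pool.Agent.H7.BAA.Idem

set_option autoImplicit false
set_option linter.unusedSectionVars false

open Filter Topology ZeroAtInfty

namespace Pool.Agent.H7.BAA

open TA

/-- The projection `(n,x) -> (n,infinity)`. -/
def prj : CocompactMap Z Z where
  toFun z := (z.1, OnePoint.infty)
  continuous_toFun := by fun_prop
  cocompact_tendsto' := by
    intro s hs
    rw [Filter.mem_cocompact] at hs
    obtain ⟨K, hK, hKs⟩ := hs
    obtain ⟨N, hN⟩ : ∃ N : ℕ, ∀ z ∈ K, z.1 ≤ N := by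
      have : BddAbove (Prod.fst '' K : Set ℕ) := (hK.image continuous_fst).bddAbove
      obtain ⟨N, hN⟩ := this
      exact ⟨N, fun z hz => hN ⟨z, hz, rfl⟩⟩
    rw [Filter.mem_map, Filter.mem_cocompact]
    refine ⟨{z : Z | z.1 ≤ N}, compact_levels N, ?_⟩
    intro z hz
    apply hKs
    intro h
    exact hz (hN (z.1, OnePoint.infty) h)

/-- `P f (n,x) = f(n,infinity)`. -/
noncomputable def P (f : C0) : C0 := f.comp prj

lemma P_apply (f : C0) (z : Z) : P f z = f (z.1, OnePoint.infty) := rfl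

lemma P_norm (f : C0) : ‖P f‖ ≤ ‖f‖ :=
  C0_norm_le _ (norm_nonneg _) fun z => C0_le_norm f _

/-- The homomorphism `E(s,t) = (P s, 0)`. -/
noncomputable def E : TA →L[ℂ] TA :=
  LinearMap.mkContinuous
    { toFun := fun a => mk (P a.s) 0
      map_add' := fun a b => by
        apply ext'
        · rfl
        · simp
      map_smul' := fun c a => by
        apply ext'
        · rfl
        · simp } 1
    (by
      intro a
      rw [norm_def a]
      simp only [LinearMap.coe_mk, AddHom.coe_mk, norm_mk, norm_zero, add_zero, one_mul]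
      have := P_norm a.s
      have := norm_nonneg a.t
      linarith)

lemma E_apply (a : TA) : E a = mk (P a.s) 0 := rfl

lemma E_mul (a b : TA) : E (a * b) = E a * E b := by
  apply ext'
  · rfl
  · simp [E_apply]

/-- The ideal. -/
noncomputable def J : Submodule ℂ TA := LinearMap.ker (E : TA →ₗ[ℂ] TA)

lemma mem_J {a : TA} : a ∈ J ↔ E a = 0 := LinearMap.mem_ker

lemma J_closed : IsClosed (J : Set TA) := by
  have : (J : Set TA) = E ⁻¹' {0} := by
    ext a
    simp [mem_J]
  rw [this]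
  exact isClosed_singleton.preimage E.continuous

instance : CompleteSpace J := J_closed.completeSpace_coe

lemma J_mul {a f : TA} (hf : f ∈ J) : a * f ∈ J := by
  rw [mem_J] at hf ⊢
  rw [E_mul, hf, mul_zero]

/-- Left action. -/
noncomputable def LJ : TA →L[ℂ] J →L[ℂ] J :=
  (LinearMap.mk₂ ℂ (fun (a : TA) (f : J) => (⟨a * (f : TA), J_mul f.2⟩ : J))
    (fun a b f => by apply Subtype.ext; exact add_mul _ _ _)
    (fun c a f => by apply Subtype.ext; exact smul_mul_assoc _ _ _)
    (fun a f g => by apply Subtype.ext; exact mul_add _ _ _)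
    (fun c a f => by apply Subtype.ext; exact mul_smul_comm _ _ _)).mkContinuous₂ 1
    (by
      intro a f
      rw [one_mul]
      exact norm_mul_le a (f : TA))

lemma LJ_apply (a : TA) (f : J) : ((LJ a f : J) : TA) = a * (f : TA) := rfl

/-- Right action. -/
noncomputable def RJ : TA →L[ℂ] J →L[ℂ] J := LJ.comp E

lemma RJ_apply (a : TA) (f : J) : ((RJ a f : J) : TA) = E a * (f : TA) := rfl

/-- The derivation. -/
noncomputable def DJ : TA →L[ℂ] J :=
  (ContinuousLinearMap.id ℂ TA - E).codRestrict J (by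
    intro a
    rw [mem_J]
    simp only [ContinuousLinearMap.coe_sub', ContinuousLinearMap.coe_id', Pi.sub_apply, id_eq,
      map_sub]
    rw [sub_eq_zero]
    rfl)

lemma DJ_apply (a : TA) : ((DJ a : J) : TA) = a - E a := rfl

lemma J_norm_t (y : J) : ‖(y : TA).t‖ ≤ ‖y‖ := by
  have : ‖y‖ = ‖(y : TA)‖ := rfl
  rw [this, norm_def]
  exact le_add_of_nonneg_left (norm_nonneg _)

theorem not_bac :
    ¬ (∀ (X : Type) [NormedAddCommGroup X] [NormedSpace ℂ X] [CompleteSpace X]
        (L R : TA →L[ℂ] X →L[ℂ] X),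
        (∀ (a b : TA) (x : X), L (a * b) x = L a (L b x)) →
        (∀ (a b : TA) (x : X), R (a * b) x = R b (R a x)) →
        (∀ (a b : TA) (x : X), L a (R b x) = R b (L a x)) →
        ∀ D : TA →L[ℂ] X,
          (∀ a b : TA, D (a * b) = L a (D b) + R b (D a)) →
          ∃ C : ℝ, ∀ (F : Finset TA) (ε : ℝ), 0 < ε →
            ∃ ξ : X,
              (∀ a : TA, ‖L a ξ - R a ξ‖ ≤ C * ‖a‖) ∧
              ∀ a ∈ F, ‖D a - (L a ξ - R a ξ)‖ < ε) := by
  classical
  intro h
  obtain ⟨C, hC⟩ := h J LJ RJ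
    (by
      intro a b x
      apply Subtype.ext
      exact mul_assoc a b (x : TA))
    (by
      intro a b x
      apply Subtype.ext
      rw [RJ_apply, RJ_apply, RJ_apply, TA_comm a b, E_mul, mul_assoc])
    (by
      intro a b x
      apply Subtype.ext
      rw [LJ_apply, RJ_apply, RJ_apply, LJ_apply, ← mul_assoc, ← mul_assoc, TA_comm a (E b)])
    DJ
    (by
      intro a b
      apply Subtype.ext
      change a * b - E (a * b) = a * (b - E b) + E b * (a - E a)
      rw [E_mul, mul_sub, mul_sub, TA_comm (E b) a, TA_comm (E b) (E a)]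
      abel)
  obtain ⟨n, hn⟩ := exists_nat_gt (2 * C)
  obtain ⟨ξ, h1, h2⟩ := hC {mkR (iL n)} (1 / 4) (by norm_num)
  have h3 := h2 _ (Finset.mem_singleton_self _)
  set z0 : Z := (n, OnePoint.infty) with hz0
  set x : TA := (ξ : TA) with hx
  have hsx : ∀ m, x.s (m, OnePoint.infty) = 0 := by
    intro m
    have h4 : E x = 0 := mem_J.mp ξ.2
    have h5 := congrArg (fun a : TA => a.s (m, OnePoint.infty)) h4
    exact h5
  -- the value at infinity
  have h4 : ‖(1 : ℂ) - w z0 * x.t z0‖ < 1 / 4 := by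
    have h5 : ((DJ (mkR (iL n)) - (LJ (mkR (iL n)) ξ - RJ (mkR (iL n)) ξ) : J) : TA).t z0 =
        1 - w z0 * x.t z0 := by
      change ((mkR (iL n) - E (mkR (iL n))) - (mkR (iL n) * x - E (mkR (iL n)) * x)).t z0 = _
      have hE : E (mkR (iL n)) = 0 := by
        apply ext'
        · rfl
        · rfl
      rw [hE, zero_mul, sub_zero, sub_zero, t_sub, t_mul]
      simp only [mkR_apply, t_mk, s_mk, zero_mul, ZeroAtInftyContinuousMap.coe_sub,
        ZeroAtInftyContinuousMap.coe_add, ZeroAtInftyContinuousMap.coe_mul, Pi.sub_apply,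
        Pi.add_apply, Pi.mul_apply, ZeroAtInftyContinuousMap.coe_zero, Pi.zero_apply]
      rw [iL_eq (z := z0) rfl, hsx n]
      ring
    rw [← h5]
    exact (C0_le_norm _ _).trans_lt ((J_norm_t _).trans_lt h3)
  have h6 : (3 / 4 : ℝ) * ((n : ℝ) + 1) < ‖x.t z0‖ := by
    have h7 : ‖w z0 * x.t z0‖ > 3 / 4 := by
      have h8 : ‖(1 : ℂ)‖ ≤ ‖(1 : ℂ) - w z0 * x.t z0‖ + ‖w z0 * x.t z0‖ := by
        have := norm_add_le ((1 : ℂ) - w z0 * x.t z0) (w z0 * x.t z0)
        simpa using this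
      rw [norm_one] at h8
      linarith
    rw [norm_mul, w_norm_apply] at h7
    have h9 : (0 : ℝ) < (n : ℝ) + 1 := by positivity
    have h10 : ((n : ℝ) + 1) * (((n : ℝ) + 1)⁻¹ * ‖x.t z0‖) = ‖x.t z0‖ := by
      field_simp
    calc (3 / 4 : ℝ) * ((n : ℝ) + 1) = ((n : ℝ) + 1) * (3 / 4) := by ring
      _ < ((n : ℝ) + 1) * (((n : ℝ) + 1)⁻¹ * ‖x.t z0‖) := by
          apply mul_lt_mul_of_pos_left _ h9
          exact h7
      _ = ‖x.t z0‖ := h10
  -- a nearby isolated point
  obtain ⟨k, hk⟩ : ∃ k : ℕ, (1 / 2 : ℝ) * ((n : ℝ) + 1) < ‖x.t (n, ((k : ℕ) : OnePoint ℕ))‖ := by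
    have hc : Continuous (fun y : OnePoint ℕ => x.t (n, y)) := by
      exact x.t.continuous.comp (by fun_prop)
    have ht : Tendsto (fun k : ℕ => ‖x.t (n, ((k : ℕ) : OnePoint ℕ))‖) atTop (𝓝 ‖x.t z0‖) := by
      have h2 : Tendsto (fun k : ℕ => ((k : ℕ) : OnePoint ℕ)) atTop (𝓝 OnePoint.infty) := by
        have := OnePoint.tendsto_coe_infty (X := ℕ)
        rwa [Filter.coclosedCompact_eq_cocompact, cocompact_eq_atTop] at this
      exact ((hc.tendsto _).comp h2).norm
    have h11 : (1 / 2 : ℝ) * ((n : ℝ) + 1) < ‖x.t z0‖ := by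
      have : (0 : ℝ) < (n : ℝ) + 1 := by positivity
      linarith
    exact (ht.eventually_const_lt h11).exists
  have h12 := h1 (mkL (iP n k))
  have h13 : ‖mkL (iP n k)‖ ≤ 1 := by
    rw [mkL_apply, norm_mk, norm_zero, add_zero]
    refine C0_norm_le _ zero_le_one fun z => ?_
    by_cases hz : z.1 = n ∧ z.2 = ((k : ℕ) : OnePoint ℕ)
    · have : z = (n, ((k : ℕ) : OnePoint ℕ)) := Prod.ext hz.1 hz.2
      rw [this, iP_eq, norm_one]
    · rw [iP_ne hz, norm_zero]; exact zero_le_one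
  have h14 : ‖x.t (n, ((k : ℕ) : OnePoint ℕ))‖ ≤ ‖LJ (mkL (iP n k)) ξ - RJ (mkL (iP n k)) ξ‖ := by
    have h5 : ((LJ (mkL (iP n k)) ξ - RJ (mkL (iP n k)) ξ : J) : TA).t
        (n, ((k : ℕ) : OnePoint ℕ)) = x.t (n, ((k : ℕ) : OnePoint ℕ)) := by
      change (mkL (iP n k) * x - E (mkL (iP n k)) * x).t _ = _
      have hE : E (mkL (iP n k)) = 0 := by
        apply ext'
        · ext z
          change iP n k (z.1, OnePoint.infty) = 0
          rw [iP_ne (by simp)]
        · rfl
      rw [hE, zero_mul, sub_zero, t_mul]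
      simp only [mkL_apply, t_mk, s_mk, zero_mul,
        ZeroAtInftyContinuousMap.coe_add, ZeroAtInftyContinuousMap.coe_mul,
        Pi.add_apply, Pi.mul_apply, ZeroAtInftyContinuousMap.coe_zero, Pi.zero_apply, iP_eq]
      ring
    rw [← h5]
    exact (C0_le_norm _ _).trans (J_norm_t _)
  have h15 : C * ‖mkL (iP n k)‖ ≤ |C| := by
    calc C * ‖mkL (iP n k)‖ ≤ |C| * ‖mkL (iP n k)‖ := by
          apply mul_le_mul_of_nonneg_right (le_abs_self C) (norm_nonneg _)
      _ ≤ |C| * 1 := by gcongr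
      _ = |C| := mul_one _
  -- contradiction
  have h16 : (1 / 2 : ℝ) * ((n : ℝ) + 1) < C * ‖mkL (iP n k)‖ := lt_of_lt_of_le hk (h14.trans h12)
  have h17 : 0 < C := by
    by_contra hneg
    have h18 : C * ‖mkL (iP n k)‖ ≤ 0 :=
      mul_nonpos_of_nonpos_of_nonneg (not_lt.mp hneg) (norm_nonneg _)
    have : (0 : ℝ) < (n : ℝ) + 1 := by positivity
    linarith
  rw [abs_of_pos h17] at h15
  linarith

end Pool.Agent.H7.BAA
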