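import Pool.Agent.H7.BAA.NonBAC

set_option autoImplicit false
set_option linter.unusedSectionVars false

open Filter Topology ZeroAtInfty

namespace Pool.Agent.H7.BAA

section abstract

variable {A : Type} [NonUnitalNormedRing A] [NormedSpace ℂ A] [IsScalarTower ℂ A A]
  [SMulCommClass ℂ A A]
variable {X : Type} [NormedAddCommGroup X] [NormedSpace ℂ X]
variable (L R : A →L[ℂ] X →L[ℂ] X) (D : A →L[ℂ] (X →L[ℂ] ℂ))

/-- Sequential form of bounded approximate amenability. -/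
theorem baa_seq (hL : ∀ (a b : A) (x : X), L (a * b) x = L a (L b x))
    (hR : ∀ (a b : A) (x : X), R (a * b) x = R b (R a x))
    (hLR : ∀ (a b : A) (x : X), L a (R b x) = R b (L a x))
    (hD : ∀ a b : A, D (a * b) = (D b).comp (R a) + (D a).comp (L b))
    (hc : ∀ a b : A, a * b = b * a) (e : ℕ → A) (he : ∀ n, e n * e n = e n)
    (hen : ∀ n, ‖e n‖ ≤ 1)
    (hM : ∀ n, ∃ M : ℝ, ∀ u ∈ Inv (e n), ‖u‖ ≤ M)
    (hdense : ∀ a : A, a ∈ closure (Submodule.span ℂ {p : A | p * p = p} : Set A))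
    (hlim : ∀ a : A, Tendsto (fun n => e n * a) atTop (𝓝 a)) :
    ∃ f : ℕ → (X →L[ℂ] ℂ),
      (∀ n a, ‖(f n).comp (R a) - (f n).comp (L a)‖ ≤ ‖D‖ * (1 + 2 * ‖L‖ + 2 * ‖R‖) * ‖a‖) ∧
      (∀ n a, (f n).comp (R (e n * a)) - (f n).comp (L (e n * a)) = D (e n * a)) ∧
      ∀ a, Tendsto (fun n => (f n).comp (R a) - (f n).comp (L a)) atTop (𝓝 (D a)) := by
  have hψ : ∀ n, ∃ ψ : X →L[ℂ] ℂ, ∀ a : A, ψ.comp (R a) - ψ.comp (L a) =
      D (e n * a) + (D (a - e n * a)).comp (L (e n)) + (D (a - e n * a)).comp (R (e n)) := by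
    intro n
    obtain ⟨M, hMn⟩ := hM n
    exact inner_global L R D hL hR hLR hD hc (e n) (he n) M hMn hdense
  choose f hf using hψ
  have hbound : ∀ n, ∀ c : A, ‖(D c).comp (L (e n))‖ ≤ ‖D‖ * ‖c‖ * ‖L‖ := by
    intro n c
    refine (ContinuousLinearMap.opNorm_comp_le _ _).trans ?_
    have h1 := D.le_opNorm c
    have h2 : ‖L (e n)‖ ≤ ‖L‖ := by
      refine (L.le_opNorm _).trans ?_
      exact mul_le_of_le_one_right (norm_nonneg _) (hen n)
    gcongr
  have hbound' : ∀ n, ∀ c : A, ‖(D c).comp (R (e n))‖ ≤ ‖D‖ * ‖c‖ * ‖R‖ := by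
    intro n c
    refine (ContinuousLinearMap.opNorm_comp_le _ _).trans ?_
    have h1 := D.le_opNorm c
    have h2 : ‖R (e n)‖ ≤ ‖R‖ := by
      refine (R.le_opNorm _).trans ?_
      exact mul_le_of_le_one_right (norm_nonneg _) (hen n)
    gcongr
  have hlim0 : ∀ a : A, Tendsto (fun n => ‖a - e n * a‖) atTop (𝓝 0) := by
    intro a
    have := (tendsto_const_nhds (x := a)).sub (hlim a)
    rw [sub_self] at this
    exact tendsto_zero_iff_norm_tendsto_zero.mp this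
  refine ⟨f, ?_, ?_, ?_⟩
  · intro n a
    rw [hf n a]
    have h0 : ‖e n * a‖ ≤ ‖a‖ :=
      (norm_mul_le _ _).trans (mul_le_of_le_one_left (norm_nonneg _) (hen n))
    have h1 : ‖a - e n * a‖ ≤ 2 * ‖a‖ := by
      refine (norm_sub_le _ _).trans ?_
      linarith
    have h2 := D.le_opNorm (e n * a)
    have h3 := hbound n (a - e n * a)
    have h4 := hbound' n (a - e n * a)
    refine (norm_add_le _ _).trans ?_
    refine (add_le_add (norm_add_le _ _) le_rfl).trans ?_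
    have h5 : ‖D‖ * ‖e n * a‖ ≤ ‖D‖ * ‖a‖ := by gcongr
    have h6 : ‖D‖ * ‖a - e n * a‖ * ‖L‖ ≤ ‖D‖ * (2 * ‖a‖) * ‖L‖ := by gcongr
    have h7 : ‖D‖ * ‖a - e n * a‖ * ‖R‖ ≤ ‖D‖ * (2 * ‖a‖) * ‖R‖ := by gcongr
    have h8 : ‖D‖ * (1 + 2 * ‖L‖ + 2 * ‖R‖) * ‖a‖ =
        ‖D‖ * ‖a‖ + ‖D‖ * (2 * ‖a‖) * ‖L‖ + ‖D‖ * (2 * ‖a‖) * ‖R‖ := by ring
    linarith
  · intro n a
    rw [hf n (e n * a)]
    have h1 : e n * (e n * a) = e n * a := by rw [← mul_assoc, he n]
    rw [h1, sub_self, map_zero]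
    simp
  · intro a
    rw [tendsto_iff_norm_sub_tendsto_zero]
    have h1 : ∀ n, (f n).comp (R a) - (f n).comp (L a) - D a =
        (D (a - e n * a)).comp (L (e n)) + (D (a - e n * a)).comp (R (e n)) -
          D (a - e n * a) := by
      intro n
      rw [hf n a]
      simp only [map_sub]
      abel
    have h2 : Tendsto (fun n => (‖D‖ * (1 + ‖L‖ + ‖R‖)) * ‖a - e n * a‖) atTop (𝓝 0) := by
      have := (hlim0 a).const_mul (‖D‖ * (1 + ‖L‖ + ‖R‖))
      simpa using this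
    refine squeeze_zero (fun n => norm_nonneg _) (fun n => ?_) h2
    rw [h1 n]
    have h2 := D.le_opNorm (a - e n * a)
    have h3 := hbound n (a - e n * a)
    have h4 := hbound' n (a - e n * a)
    refine (norm_sub_le _ _).trans ?_
    refine (add_le_add (norm_add_le _ _) le_rfl).trans ?_
    have h8 : ‖D‖ * (1 + ‖L‖ + ‖R‖) * ‖a - e n * a‖ = ‖D‖ * ‖a - e n * a‖ +
      ‖D‖ * ‖a - e n * a‖ * ‖L‖ + ‖D‖ * ‖a - e n * a‖ * ‖R‖ := by ring
    linarith

end abstract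

open TA

/-- Characters. -/
noncomputable def chr1 (z : Z) : TA →ₙₐ[ℂ] ℂ where
  toFun a := a.s z
  map_smul' _ _ := rfl
  map_zero' := rfl
  map_add' _ _ := rfl
  map_mul' _ _ := rfl

/-- Characters. -/
noncomputable def chr2 (z : Z) : TA →ₙₐ[ℂ] ℂ where
  toFun a := a.s z + w z * a.t z
  map_smul' c a := by
    change c * a.s z + w z * (c * a.t z) = c • (a.s z + w z * a.t z)
    rw [smul_eq_mul]; ring
  map_zero' := by
    change (0 : ℂ) + w z * 0 = 0
    ring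
  map_add' a b := by
    change (a.s z + b.s z) + w z * (a.t z + b.t z) = _
    ring
  map_mul' a b := by
    change a.s z * b.s z + w z * (a.s z * b.t z + b.s z * a.t z + w z * (a.t z * b.t z)) =
      (a.s z + w z * a.t z) * (b.s z + w z * b.t z)
    ring

lemma semisimple (a : TA) (h : ∀ χ : TA →ₙₐ[ℂ] ℂ, χ a = 0) : a = 0 := by
  have h1 : ∀ z, a.s z = 0 := fun z => h (chr1 z)
  have h2 : ∀ z, a.t z = 0 := by
    intro z
    have h3 : a.s z + w z * a.t z = 0 := h (chr2 z)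
    rw [h1 z, zero_add] at h3
    rcases mul_eq_zero.mp h3 with h4 | h4
    · exfalso
      have h5 := w_norm_apply z
      rw [h4, norm_zero] at h5
      have : (0 : ℝ) < ((z.1 : ℝ) + 1)⁻¹ := by positivity
      linarith
    · exact h4
  apply ext'
  · ext z; exact h1 z
  · ext z; exact h2 z

noncomputable instance instNCR : NonUnitalNormedCommRing TA :=
  { instNR with mul_comm := TA_comm }

end Pool.Agent.H7.BAA
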